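import Mathlib

/-!
Homogeneous polynomials: factors of homogeneous polynomials are homogeneous, linear forms,
comparison of homogeneous components.
-/

open MvPolynomial

namespace Pool.Agent.X321.Homog

section factor
variable {R : Type*} [CommRing R] [IsDomain R] {σ : Type*}

/-- the scaling map -/
noncomputable def scal : MvPolynomial σ R →ₐ[R] Polynomial (MvPolynomial σ R) :=
  aeval fun i => Polynomial.C (X i) * Polynomial.X

lemma scal_hom {f : MvPolynomial σ R} {n : ℕ} (hf : f.IsHomogeneous n) :
    scal f = Polynomial.C f * Polynomial.X ^ n := by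
  conv_lhs => rw [f.as_sum]
  conv_rhs => rw [f.as_sum]
  rw [map_sum, map_sum, Finset.sum_mul]
  apply Finset.sum_congr rfl
  intro d hd
  have hdeg : d.degree = n := by
    by_contra h
    exact (mem_support_iff.1 hd) (hf.coeff_eq_zero h)
  rw [scal, aeval_monomial, Finsupp.prod, ← hdeg, Finsupp.degree]
  rw [monomial_eq, Finsupp.prod]
  simp only [mul_pow, Finset.prod_mul_distrib, map_mul, map_prod, map_pow]
  rw [Finset.prod_pow_eq_pow_sum, ← mul_assoc]
  rfl

lemma coeff_scal (f : MvPolynomial σ R) (n : ℕ) : (scal f).coeff n = homogeneousComponent n f := by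
  conv_lhs => rw [← sum_homogeneousComponent f]
  rw [map_sum, Polynomial.finsetSum_coeff]
  have h1 : ∀ i, (scal (homogeneousComponent i f)).coeff n =
      if n = i then homogeneousComponent i f else 0 := by
    intro i
    rw [scal_hom (homogeneousComponent_isHomogeneous i f), Polynomial.coeff_C_mul_X_pow]
  simp_rw [h1]
  rw [Finset.sum_ite_eq]
  split_ifs with h
  · rfl
  · rw [homogeneousComponent_eq_zero]
    rw [Finset.mem_range] at h
    omega

lemma scal_ne_zero {f : MvPolynomial σ R} (hf : f ≠ 0) : scal f ≠ 0 := by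
  intro h
  apply hf
  rw [← sum_homogeneousComponent f]
  apply Finset.sum_eq_zero
  intro i _
  rw [← coeff_scal, h, Polynomial.coeff_zero]

lemma isHomogeneous_of_scal {f : MvPolynomial σ R}
    (h : (scal f).natDegree = (scal f).natTrailingDegree) :
    f.IsHomogeneous (scal f).natDegree := by
  have h1 : ∀ n, n ≠ (scal f).natDegree → homogeneousComponent n f = 0 := by
    intro n hn
    rw [← coeff_scal]
    rcases lt_or_gt_of_ne hn with h2 | h2
    · rw [h] at h2
      exact Polynomial.coeff_eq_zero_of_lt_natTrailingDegree h2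
    · exact Polynomial.coeff_eq_zero_of_natDegree_lt h2
  have h2 : f = homogeneousComponent (scal f).natDegree f := by
    conv_lhs => rw [← sum_homogeneousComponent f]
    by_cases h3 : (scal f).natDegree ∈ Finset.range (f.totalDegree + 1)
    · rw [Finset.sum_eq_single_of_mem _ h3]
      intro n _ hn
      exact h1 n hn
    · rw [Finset.sum_eq_zero, homogeneousComponent_eq_zero]
      · rw [Finset.mem_range] at h3
        omega
      · intro n hn
        apply h1
        rintro rfl
        exact h3 hn
  conv_lhs => rw [h2]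
  exact homogeneousComponent_isHomogeneous _ f

/-- factors of homogeneous polynomials are homogeneous -/
lemma isHomogeneous_of_mul {n : ℕ} {f g : MvPolynomial σ R} (h0 : f * g ≠ 0)
    (h : (f * g).IsHomogeneous n) :
    ∃ a b, f.IsHomogeneous a ∧ g.IsHomogeneous b ∧ a + b = n := by
  have hf : f ≠ 0 := left_ne_zero_of_mul h0
  have hg : g ≠ 0 := right_ne_zero_of_mul h0
  have h1 := scal_hom h
  rw [map_mul] at h1
  have h2 : (scal f * scal g).natDegree = n := by
    rw [h1, Polynomial.natDegree_C_mul_X_pow _ _ h0]
  have h3 : (scal f * scal g).natTrailingDegree = n := by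
    rw [h1, Polynomial.C_mul_X_pow_eq_monomial, Polynomial.natTrailingDegree_monomial h0]
  rw [Polynomial.natDegree_mul (scal_ne_zero hf) (scal_ne_zero hg)] at h2
  rw [Polynomial.natTrailingDegree_mul (scal_ne_zero hf) (scal_ne_zero hg)] at h3
  have h4 := Polynomial.natTrailingDegree_le_natDegree (scal f)
  have h5 := Polynomial.natTrailingDegree_le_natDegree (scal g)
  exact ⟨_, _, isHomogeneous_of_scal (by omega), isHomogeneous_of_scal (by omega), h2⟩

/-- the complementary factor of a homogeneous polynomial -/
lemma isHomogeneous_right {a n : ℕ} {f g : MvPolynomial σ R} (hf : f.IsHomogeneous a)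
    (h0 : f * g ≠ 0) (h : (f * g).IsHomogeneous n) :
    ∃ b, g.IsHomogeneous b ∧ a + b = n := by
  obtain ⟨a', b, ha, hb, hab⟩ := isHomogeneous_of_mul h0 h
  have := ha.inj_right hf (left_ne_zero_of_mul h0)
  exact ⟨b, hb, by omega⟩

end factor

section linear

variable {R : Type*} [CommRing R] {σ : Type*} [Fintype σ]

lemma exists_linear {f : MvPolynomial σ R} (hf : f.IsHomogeneous 1) :
    ∃ a : σ → R, f = ∑ i, C (a i) * X i := by
  have h : f ∈ Submodule.span R (Set.range (X : σ → MvPolynomial σ R)) := by
    rw [← homogeneousSubmodule_one_eq_span_X]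
    exact hf
  obtain ⟨a, ha⟩ := (Submodule.mem_span_range_iff_exists_fun R).1 h
  exact ⟨a, by rw [← ha]; simp [smul_eq_C_mul]⟩

lemma exists_const {f : MvPolynomial σ R} (hf : f.IsHomogeneous 0) : ∃ c : R, f = C c := by
  classical
  refine ⟨coeff 0 f, ?_⟩
  ext d
  rw [coeff_C]
  split_ifs with h
  · rw [← h]
  · apply hf.coeff_eq_zero
    intro h2
    apply h
    symm
    exact Finsupp.degree_eq_zero_iff d |>.1 h2

end linear

section components

variable {R : Type*} [CommRing R] {σ : Type*}

lemma hom4 {f0 f1 f2 f3 f4 : MvPolynomial σ R} (h0 : f0.IsHomogeneous 0) (h1 : f1.IsHomogeneous 1)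
    (h2 : f2.IsHomogeneous 2)
    (h3 : f3.IsHomogeneous 3) (h4 : f4.IsHomogeneous 4) (h : f0 + f1 + f2 + f3 + f4 = 0) :
    f0 = 0 ∧ f1 = 0 ∧ f2 = 0 ∧ f3 = 0 ∧ f4 = 0 := by
  have key : ∀ n, homogeneousComponent n (f0 + f1 + f2 + f3 + f4) = 0 := by
    intro n; rw [h, map_zero]
  simp only [map_add, homogeneousComponent_of_mem h0, homogeneousComponent_of_mem h1,
    homogeneousComponent_of_mem h2, homogeneousComponent_of_mem h3,
    homogeneousComponent_of_mem h4] at key
  refine ⟨?_, ?_, ?_, ?_, ?_⟩
  · simpa using key 0
  · simpa using key 1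
  · simpa using key 2
  · simpa using key 3
  · simpa using key 4

lemma eq_sum_components {f : MvPolynomial σ R} (hf : f.totalDegree ≤ 2) :
    f = homogeneousComponent 0 f + homogeneousComponent 1 f + homogeneousComponent 2 f := by
  have h := sum_homogeneousComponent f
  have h2 : ∑ i ∈ Finset.range (f.totalDegree + 1), homogeneousComponent i f
      = ∑ i ∈ Finset.range 3, homogeneousComponent i f := by
    apply Finset.sum_subset
    · intro i hi
      rw [Finset.mem_range] at hi ⊢
      omega
    · intro i _ hi
      rw [Finset.mem_range, not_lt] at hi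
      exact homogeneousComponent_eq_zero _ _ (by omega)
  rw [← h, h2]
  simp only [Finset.sum_range_succ, Finset.sum_range_zero, zero_add, map_add]
  simp only [homogeneousComponent_of_mem (homogeneousComponent_isHomogeneous _ f)]
  simp

end components

end Pool.Agent.X321.Homog
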